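import Pool.Agent.U511.RD.Pot

set_option autoImplicit false
set_option linter.unusedSectionVars false

/-!
# Making the degrees of a few vertices isolated, and giving codes to other vertices
-/

namespace Pool.Agent.U511.RD

open Finset Classical
open Pool.Agent.H234RC (Reconstructible)

variable {V : Type} [Fintype V]

/-- separated numbers above given numbers -/
theorem exists_sep (B : Finset V) (m : V → ℕ) : ∃ f : V → ℕ,
    (∀ j ∈ B, m j ≤ f j ∧ f j ≤ m j + 3 * B.card) ∧
    ∀ i ∈ B, ∀ j ∈ B, i ≠ j → f i + 2 ≤ f j ∨ f j + 2 ≤ f i := by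
  induction B using Finset.induction_on with
  | empty => exact ⟨fun _ => 0, by simp, by simp⟩
  | insert a B ha ih =>
    obtain ⟨f, h1, h2⟩ := ih
    let forb : Finset ℕ := B.image (fun j => f j - 1) ∪ (B.image (fun j => f j) ∪
      B.image (fun j => f j + 1))
    have hforb : forb.card ≤ 3 * B.card := by
      have h1 := card_union_le (B.image (fun j => f j - 1)) (B.image (fun j => f j) ∪
        B.image (fun j => f j + 1))
      have h2 := card_union_le (B.image (fun j => f j)) (B.image (fun j => f j + 1))
      have h3 := card_image_le (s := B) (f := fun j => f j - 1)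
      have h4 := card_image_le (s := B) (f := fun j => f j)
      have h5 := card_image_le (s := B) (f := fun j => f j + 1)
      show (B.image (fun j => f j - 1) ∪ (B.image (fun j => f j) ∪
        B.image (fun j => f j + 1))).card ≤ _
      omega
    obtain ⟨k, hk, hkf⟩ : ∃ k ≤ 3 * B.card, m a + k ∉ forb := by
      by_contra hcon
      push Not at hcon
      have h1 : (range (3 * B.card + 1)).image (fun k => m a + k) ⊆ forb := by
        intro y hy
        obtain ⟨k, hk, rfl⟩ := mem_image.mp hy
        exact hcon k (by have := mem_range.mp hk; omega)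
      have h2 := card_le_card h1
      rw [card_image_of_injective _ (fun a b hab => by simpa using hab), card_range] at h2
      omega
    have hsep : ∀ j ∈ B, m a + k + 2 ≤ f j ∨ f j + 2 ≤ m a + k := by
      intro j hj
      by_contra hcon
      push Not at hcon
      apply hkf
      have h3 : m a + k = f j - 1 ∨ m a + k = f j ∨ m a + k = f j + 1 := by omega
      rcases h3 with h3 | h3 | h3
      · rw [h3]
        exact mem_union_left _ (mem_image_of_mem (fun j => f j - 1) hj)
      · rw [h3]
        exact mem_union_right _ (mem_union_left _ (mem_image_of_mem (fun j => f j) hj))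
      · rw [h3]
        exact mem_union_right _ (mem_union_right _ (mem_image_of_mem (fun j => f j + 1) hj))
    have hne : ∀ j ∈ B, j ≠ a := fun j hj e => ha (e ▸ hj)
    refine ⟨fun j => if j = a then m a + k else f j, ?_, ?_⟩
    · intro j hj
      rw [card_insert_of_notMem ha]
      show m j ≤ (if j = a then m a + k else f j) ∧
        (if j = a then m a + k else f j) ≤ m j + 3 * (B.card + 1)
      by_cases hja : j = a
      · rw [if_pos hja, hja]
        omega
      · rw [if_neg hja]
        have := h1 j ((mem_insert.mp hj).resolve_left hja)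
        omega
    · intro i hi j hj hij
      show (if i = a then m a + k else f i) + 2 ≤ (if j = a then m a + k else f j) ∨
        (if j = a then m a + k else f j) + 2 ≤ (if i = a then m a + k else f i)
      by_cases hia : i = a
      · have hja : j ≠ a := fun e => hij (hia.trans e.symm)
        rw [if_pos hia, if_neg hja]
        exact hsep j ((mem_insert.mp hj).resolve_left hja)
      · rw [if_neg hia]
        by_cases hja : j = a
        · rw [if_pos hja]
          exact (hsep i ((mem_insert.mp hi).resolve_left hia)).symm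
        · rw [if_neg hja]
          exact h2 i ((mem_insert.mp hi).resolve_left hia) j ((mem_insert.mp hj).resolve_left hja)
            hij

/-- disjoint subsets of prescribed sizes of large sets -/
theorem exists_disj (B : Finset V) (Z : V → Finset V) (k : V → ℕ)
    (hZ : ∀ j ∈ B, ∑ i ∈ B, k i ≤ (Z j).card) :
    ∃ P : V → Finset V, (∀ j ∈ B, P j ⊆ Z j ∧ (P j).card = k j) ∧
      ∀ i ∈ B, ∀ j ∈ B, i ≠ j → Disjoint (P i) (P j) := by
  induction B using Finset.induction_on with
  | empty => exact ⟨fun _ => ∅, by simp, by simp⟩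
  | insert a B ha ih =>
    rw [sum_insert ha] at hZ
    obtain ⟨P, h1, h2⟩ := ih (fun j hj => by
      have := hZ j (mem_insert_of_mem hj)
      omega)
    have hU : (B.biUnion P).card ≤ ∑ i ∈ B, k i := by
      refine card_biUnion_le.trans ?_
      exact sum_le_sum (fun j hj => (h1 j hj).2.le)
    have hZa := hZ a (mem_insert_self _ _)
    have hsd : k a ≤ (Z a \ B.biUnion P).card := by
      have h3 : (Z a).card - (B.biUnion P).card ≤ (Z a \ B.biUnion P).card := le_card_sdiff _ _
      omega
    obtain ⟨Q, hQ, hQc⟩ := exists_subset_card_eq hsd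
    have hQZ : Q ⊆ Z a := hQ.trans sdiff_subset
    have hQd : ∀ j ∈ B, Disjoint Q (P j) := by
      intro j hj
      rw [Finset.disjoint_left]
      intro x hx hxP
      exact (mem_sdiff.mp (hQ hx)).2 (mem_biUnion.mpr ⟨j, hj, hxP⟩)
    refine ⟨fun j => if j = a then Q else P j, ?_, ?_⟩
    · intro j hj
      by_cases hja : j = a
      · simp only [if_pos hja]
        rw [hja]
        exact ⟨hQZ, hQc⟩
      · simp only [if_neg hja]
        exact h1 j ((mem_insert.mp hj).resolve_left hja)
    · intro i hi j hj hij
      by_cases hia : i = a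
      · have hja : j ≠ a := fun e => hij (hia.trans e.symm)
        simp only [if_pos hia, if_neg hja]
        exact hQd j ((mem_insert.mp hj).resolve_left hja)
      · simp only [if_neg hia]
        by_cases hja : j = a
        · simp only [if_pos hja]
          exact (hQd i ((mem_insert.mp hi).resolve_left hia)).symm
        · simp only [if_neg hja]
          exact h2 i ((mem_insert.mp hi).resolve_left hia) j ((mem_insert.mp hj).resolve_left hja)
            hij

/-- the neighbours in `B` -/
noncomputable def nb (G : SimpleGraph V) (B : Finset V) (x : V) : Finset V :=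
  B.filter (fun j => G.Adj x j)

/-- distinct codes, near to the given ones, avoiding a set of codes -/
theorem exists_codes_aux (B S : Finset V) (N : V → Finset V) (hN : ∀ s, N s ⊆ B) (h : ℕ)
    (F : Finset (Finset V))
    (hF : F.card + S.card ≤ (B.powerset.filter (fun Q => Q.card ≤ h)).card) :
    ∃ κ : V → Finset V, (∀ s ∈ S, κ s ⊆ B ∧ (symmDiff (κ s) (N s)).card ≤ h ∧ κ s ∉ F) ∧
      (∀ s ∈ S, ∀ s' ∈ S, κ s = κ s' → s = s') := by
  induction S using Finset.induction_on with
  | empty => exact ⟨fun _ => ∅, by simp, by simp⟩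
  | insert a S ha ih =>
    rw [card_insert_of_notMem ha] at hF
    obtain ⟨κ, h1, h2⟩ := ih (by omega)
    have hinj : Function.Injective (fun Q : Finset V => symmDiff Q (N a)) := by
      intro Q Q' hQ
      have := congrArg (fun R => symmDiff R (N a)) hQ
      simpa using this
    have hcard : (F ∪ S.image κ).card <
        ((B.powerset.filter (fun Q => Q.card ≤ h)).image (fun Q => symmDiff Q (N a))).card := by
      rw [card_image_of_injective _ hinj]
      have h3 := card_union_le F (S.image κ)
      have h4 := card_image_le (s := S) (f := κ)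
      omega
    obtain ⟨C, hC, hCF⟩ := exists_mem_notMem_of_card_lt_card hcard
    obtain ⟨Q, hQ, rfl⟩ := mem_image.mp hC
    rw [mem_filter, mem_powerset] at hQ
    rw [mem_union, not_or] at hCF
    have hsub : symmDiff Q (N a) ⊆ B := by
      intro x hx
      rw [mem_symmDiff] at hx
      rcases hx with hx | hx
      · exact hQ.1 hx.1
      · exact hN a hx.1
    have hne : ∀ s ∈ S, s ≠ a := fun s hs e => ha (e ▸ hs)
    have hnew : ∀ s ∈ S, κ s ≠ symmDiff Q (N a) := by
      intro s hs e
      exact hCF.2 (mem_image.mpr ⟨s, hs, e⟩)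
    refine ⟨fun s => if s = a then symmDiff Q (N a) else κ s, ?_, ?_⟩
    · intro s hs
      by_cases hsa : s = a
      · simp only [if_pos hsa]
        rw [hsa]
        refine ⟨hsub, ?_, hCF.1⟩
        simpa using hQ.2
      · simp only [if_neg hsa]
        exact h1 s ((mem_insert.mp hs).resolve_left hsa)
    · intro s hs s' hs' he
      by_cases hsa : s = a
      · by_cases hsa' : s' = a
        · exact hsa.trans hsa'.symm
        · simp only [if_pos hsa, if_neg hsa'] at he
          exact absurd he.symm (hnew s' ((mem_insert.mp hs').resolve_left hsa'))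
      · by_cases hsa' : s' = a
        · simp only [if_neg hsa, if_pos hsa'] at he
          exact absurd he (hnew s ((mem_insert.mp hs).resolve_left hsa))
        · simp only [if_neg hsa, if_neg hsa'] at he
          exact h2 s ((mem_insert.mp hs).resolve_left hsa) s' ((mem_insert.mp hs').resolve_left hsa')
            he

/-- distinct codes avoiding the codes which may occur outside -/
theorem exists_codes (G : SimpleGraph V) (B S : Finset V) (h : ℕ)
    (hpow : Fintype.card V * (B.card + 1) + S.card ≤
      (B.powerset.filter (fun Q => Q.card ≤ h)).card) :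
    ∃ κ : V → Finset V, (∀ s ∈ S, κ s ⊆ B) ∧ (∀ s ∈ S, (symmDiff (κ s) (nb G B s)).card ≤ h) ∧
      (∀ s ∈ S, ∀ s' ∈ S, κ s = κ s' → s = s') ∧
      ∀ s ∈ S, ∀ y, κ s ≠ nb G B y ∧ ∀ j ∈ B, κ s ≠ insert j (nb G B y) := by
  let F : Finset (Finset V) := univ.image (fun y => nb G B y) ∪
    ((univ : Finset V) ×ˢ B).image (fun p => insert p.2 (nb G B p.1))
  have hF : F.card ≤ Fintype.card V * (B.card + 1) := by
    have h1 := card_union_le (univ.image (fun y => nb G B y))
      (((univ : Finset V) ×ˢ B).image (fun p => insert p.2 (nb G B p.1)))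
    have h2 := card_image_le (s := (univ : Finset V)) (f := fun y => nb G B y)
    have h3 := card_image_le (s := (univ : Finset V) ×ˢ B)
      (f := fun p => insert p.2 (nb G B p.1))
    rw [card_product, card_univ] at h3
    rw [card_univ] at h2
    have h4 : Fintype.card V * (B.card + 1) = Fintype.card V * B.card + Fintype.card V := by ring
    rw [h4]
    show (univ.image (fun y => nb G B y) ∪
      ((univ : Finset V) ×ˢ B).image (fun p => insert p.2 (nb G B p.1))).card ≤ _
    omega
  obtain ⟨κ, h1, h2⟩ := exists_codes_aux B S (nb G B) (fun s => filter_subset _ _) h F (by omega)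
  refine ⟨κ, fun s hs => (h1 s hs).1, fun s hs => (h1 s hs).2.1, h2, ?_⟩
  intro s hs y
  have h3 := (h1 s hs).2.2
  refine ⟨fun h => h3 ?_, fun j hj h => h3 ?_⟩
  · rw [h]
    exact mem_union_left _ (mem_image_of_mem (fun y => nb G B y) (mem_univ y))
  · rw [h]
    exact mem_union_right _ (mem_image_of_mem (fun p : V × V => insert p.2 (nb G B p.1))
      (mem_product.mpr ⟨mem_univ y, hj⟩ : (y, j) ∈ (univ : Finset V) ×ˢ B))

/-- The graph `G` with the edges between `B` and its complement replaced by those of `R`. -/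
def setB (G : SimpleGraph V) (B : Finset V) (R : V → V → Prop) : SimpleGraph V where
  Adj x y := (x ∈ B ∧ y ∉ B ∧ R x y) ∨ (x ∉ B ∧ y ∈ B ∧ R y x) ∨ ((x ∈ B ↔ y ∈ B) ∧ G.Adj x y)
  symm := by
    constructor
    rintro x y (h | h | h)
    · exact Or.inr (Or.inl ⟨h.2.1, h.1, h.2.2⟩)
    · exact Or.inl ⟨h.2.1, h.1, h.2.2⟩
    · exact Or.inr (Or.inr ⟨h.1.symm, h.2.symm⟩)
  loopless := ⟨fun x h => by
    rcases h with h | h | h
    · exact h.2.1 h.1
    · exact h.1 h.2.1
    · exact G.irrefl h.2⟩

theorem setB_in {G : SimpleGraph V} {B : Finset V} {R : V → V → Prop} {x y : V}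
    (h : x ∈ B ↔ y ∈ B) : (setB G B R).Adj x y ↔ G.Adj x y := by
  constructor
  · rintro (h1 | h1 | h1)
    · exact absurd (h.mp h1.1) h1.2.1
    · exact absurd (h.mpr h1.2.1) h1.1
    · exact h1.2
  · intro h1
    exact Or.inr (Or.inr ⟨h, h1⟩)

theorem setB_R {G : SimpleGraph V} {B : Finset V} {R : V → V → Prop} {x y : V}
    (hx : x ∈ B) (hy : y ∉ B) : (setB G B R).Adj x y ↔ R x y := by
  constructor
  · rintro (h1 | h1 | h1)
    · exact h1.2.2
    · exact absurd hx h1.1
    · exact absurd (h1.1.mp hx) hy
  · intro h1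
    exact Or.inl ⟨hx, hy, h1⟩

/-- **First stage.** -/
theorem stage1 (G : SimpleGraph V) (B S : Finset V) (D h : ℕ) (hSB : Disjoint B S)
    (hpow : Fintype.card V * (B.card + 1) + S.card ≤
      (B.powerset.filter (fun Q => Q.card ≤ h)).card)
    (hlow : ∀ x, x ∉ B → dg G x ≤ D) (hhigh : ∀ j ∈ B, D ≤ dg G j)
    (hnon : ∀ j ∈ B, S.card * h + B.card * (4 * B.card + 3) ≤
      (univ.filter (fun x => x ∉ B ∧ x ∉ S ∧ ¬ G.Adj j x)).card) :
    ∃ (H : SimpleGraph V) (X : Finset (V × V)),
      (∀ p ∈ X, p.1 ∈ B) ∧
      (∀ x y, ¬ (H.Adj x y ↔ G.Adj x y) → (x, y) ∈ X ∨ (y, x) ∈ X) ∧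
      X.card ≤ S.card * h + (S.card * h + B.card * (4 * B.card + 3)) ∧
      (∀ x, x ∉ B → dg H x ≤ D + B.card) ∧ (∀ j ∈ B, D + B.card + 3 ≤ dg H j) ∧
      (∀ i ∈ B, ∀ j ∈ B, i ≠ j → dg H i + 2 ≤ dg H j ∨ dg H j + 2 ≤ dg H i) ∧
      ∀ s ∈ S, ∀ y, y ∉ B → y ≠ s → ∃ j ∈ B, ¬ (H.Adj s j ↔ H.Adj y j) := by
  obtain ⟨κ, hκ1, hκ4, hκ2, hκ3⟩ := exists_codes G B S h hpow
  let Z : V → Finset V := fun j => univ.filter (fun x => x ∉ B ∧ x ∉ S ∧ ¬ G.Adj j x)
  -- the lost neighbours
  let lost : V → Finset V := fun j => S.filter (fun s => G.Adj j s ∧ j ∉ κ s)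
  have hlost : ∑ j ∈ B, (lost j).card ≤ S.card * h := by
    have h1 : ∀ j ∈ B, (lost j).card = ∑ s ∈ S, if G.Adj j s ∧ j ∉ κ s then 1 else 0 := by
      intro j _
      exact card_filter _ _
    rw [sum_congr rfl h1, sum_comm, ← smul_eq_mul, ← sum_const]
    apply sum_le_sum
    intro s hs
    rw [← card_filter]
    refine le_trans (card_le_card ?_) (hκ4 s hs)
    intro j hj
    rw [mem_filter] at hj
    rw [mem_symmDiff]
    right
    exact ⟨mem_filter.mpr ⟨hj.1, hj.2.1.symm⟩, hj.2.2⟩
  -- the degrees after the codes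
  let N0 : V → Finset V := fun j => univ.filter (fun y =>
    (y ∉ S ∧ G.Adj j y) ∨ (y ∈ S ∧ j ∈ κ y))
  let d : V → ℕ := fun j => (N0 j).card
  have hd : ∀ j ∈ B, D ≤ d j + (lost j).card := by
    intro j hj
    refine (hhigh j hj).trans ?_
    unfold dg
    calc (univ.filter (fun y => G.Adj j y)).card ≤ (N0 j ∪ lost j).card := by
          apply card_le_card
          intro y hy
          rw [mem_filter] at hy
          by_cases hyS : y ∈ S
          · by_cases hyκ : j ∈ κ y
            · exact mem_union_left _ (mem_filter.mpr ⟨mem_univ _, Or.inr ⟨hyS, hyκ⟩⟩)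
            · exact mem_union_right _ (mem_filter.mpr ⟨hyS, hy.2, hyκ⟩)
          · exact mem_union_left _ (mem_filter.mpr ⟨mem_univ _, Or.inl ⟨hyS, hy.2⟩⟩)
      _ ≤ _ := card_union_le _ _
  obtain ⟨f, hf1, hf2⟩ := exists_sep B (fun j => max (d j) (D + B.card + 3))
  have hfd : ∀ j ∈ B, d j ≤ f j ∧ D + B.card + 3 ≤ f j ∧
      f j ≤ d j + ((lost j).card + (4 * B.card + 3)) := by
    intro j hj
    have h1 := hf1 j hj
    have h2 := hd j hj
    have h3 := le_max_left (d j) (D + B.card + 3)
    have h4 := le_max_right (d j) (D + B.card + 3)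
    have h5 : max (d j) (D + B.card + 3) ≤ d j + ((lost j).card + B.card + 3) := by
      apply max_le <;> omega
    omega
  have hsumk : ∑ j ∈ B, (f j - d j) ≤ S.card * h + B.card * (4 * B.card + 3) := by
    calc ∑ j ∈ B, (f j - d j) ≤ ∑ j ∈ B, ((lost j).card + (4 * B.card + 3)) :=
          sum_le_sum (fun j hj => by have := hfd j hj; omega)
      _ = ∑ j ∈ B, (lost j).card + B.card * (4 * B.card + 3) := by
          rw [sum_add_distrib, sum_const, smul_eq_mul]
      _ ≤ _ := Nat.add_le_add_right hlost _
  obtain ⟨P, hP1, hP2⟩ := exists_disj B Z (fun j => f j - d j)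
    (fun j hj => hsumk.trans (hnon j hj))
  let R : V → V → Prop := fun j y => (y ∉ S ∧ (G.Adj j y ∨ y ∈ P j)) ∨ (y ∈ S ∧ j ∈ κ y)
  set H := setB G B R with hH
  have hPZ : ∀ j ∈ B, ∀ y ∈ P j, y ∉ B ∧ y ∉ S ∧ ¬ G.Adj j y := by
    intro j hj y hy
    have := (hP1 j hj).1 hy
    exact (mem_filter.mp this).2
  have hdH : ∀ j ∈ B, dg H j = f j := by
    intro j hj
    have h1 : univ.filter (fun y => H.Adj j y) = N0 j ∪ P j := by
      ext y
      rw [mem_filter, mem_union, mem_filter]
      by_cases hyB : y ∈ B
      · have hyS : y ∉ S := Finset.disjoint_left.mp hSB hyB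
        have h2 : H.Adj j y ↔ G.Adj j y := setB_in (iff_of_true hj hyB)
        rw [h2]
        constructor
        · rintro ⟨_, h⟩
          exact Or.inl ⟨mem_univ _, Or.inl ⟨hyS, h⟩⟩
        · rintro (⟨_, h | h⟩ | h)
          · exact ⟨mem_univ _, h.2⟩
          · exact absurd h.1 hyS
          · exact absurd hyB (hPZ j hj y h).1
      · have h2 : H.Adj j y ↔ R j y := setB_R hj hyB
        rw [h2]
        constructor
        · rintro ⟨_, ⟨h0, h | h⟩ | h⟩
          · exact Or.inl ⟨mem_univ _, Or.inl ⟨h0, h⟩⟩
          · exact Or.inr h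
          · exact Or.inl ⟨mem_univ _, Or.inr h⟩
        · rintro (⟨_, h | h⟩ | h)
          · exact ⟨mem_univ _, Or.inl ⟨h.1, Or.inl h.2⟩⟩
          · exact ⟨mem_univ _, Or.inr h⟩
          · exact ⟨mem_univ _, Or.inl ⟨(hPZ j hj y h).2.1, Or.inr h⟩⟩
    have h2 : Disjoint (N0 j) (P j) := by
      rw [Finset.disjoint_left]
      intro y hy hyP
      have h3 := hPZ j hj y hyP
      rcases (mem_filter.mp hy).2 with h | h
      · exact h3.2.2 h.2
      · exact h3.2.1 h.1
    unfold dg
    rw [h1, card_union_of_disjoint h2, (hP1 j hj).2]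
    have := hfd j hj
    show d j + (f j - d j) = f j
    omega
  -- the codes in `H`
  have hcS : ∀ s ∈ S, ∀ j ∈ B, (H.Adj s j ↔ j ∈ κ s) := by
    intro s hs j hj
    have hsB : s ∉ B := fun h => Finset.disjoint_left.mp hSB h hs
    rw [SimpleGraph.adj_comm, setB_R hj hsB]
    constructor
    · rintro (h | h)
      · exact absurd hs h.1
      · exact h.2
    · intro h
      exact Or.inr ⟨hs, h⟩
  have hcO : ∀ y, y ∉ B → y ∉ S → ∀ j ∈ B, (H.Adj y j ↔ (G.Adj y j ∨ y ∈ P j)) := by
    intro y hy hyS j hj
    rw [SimpleGraph.adj_comm, setB_R hj hy, G.adj_comm y j]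
    constructor
    · rintro (h | h)
      · exact h.2
      · exact absurd h.1 hyS
    · intro h
      exact Or.inl ⟨hyS, h⟩
  let X : Finset (V × V) := S.biUnion (fun s =>
    (symmDiff (κ s) (nb G B s)).image (fun j => (j, s))) ∪
    B.biUnion (fun j => (P j).image (fun y => (j, y)))
  have hsd : ∀ s ∈ S, symmDiff (κ s) (nb G B s) ⊆ B := by
    intro s hs x hx
    rw [mem_symmDiff] at hx
    rcases hx with hx | hx
    · exact hκ1 s hs hx.1
    · exact (mem_filter.mp hx.1).1
  refine ⟨H, X, ?_, ?_, ?_, ?_, ?_, ?_, ?_⟩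
  · intro p hp
    rcases mem_union.mp hp with hp | hp
    · obtain ⟨s, hs, hp⟩ := mem_biUnion.mp hp
      obtain ⟨j, hj, rfl⟩ := mem_image.mp hp
      exact hsd s hs hj
    · obtain ⟨j, hj, hp⟩ := mem_biUnion.mp hp
      obtain ⟨y, _, rfl⟩ := mem_image.mp hp
      exact hj
  · have key : ∀ x y, x ∈ B → y ∉ B → ¬ (H.Adj x y ↔ G.Adj x y) → (x, y) ∈ X := by
      intro x y hx hy hxy
      by_cases hyS : y ∈ S
      · apply mem_union_left
        refine mem_biUnion.mpr ⟨y, hyS, mem_image.mpr ⟨x, ?_, rfl⟩⟩
        rw [mem_symmDiff]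
        by_contra hcon
        push Not at hcon
        apply hxy
        rw [H.adj_comm, hcS y hyS x hx, G.adj_comm]
        constructor
        · intro h1
          exact (mem_filter.mp (hcon.1 h1)).2
        · intro h1
          exact hcon.2 (mem_filter.mpr ⟨hx, h1⟩)
      · apply mem_union_right
        refine mem_biUnion.mpr ⟨x, hx, mem_image.mpr ⟨y, ?_, rfl⟩⟩
        by_contra hyP
        apply hxy
        rw [H.adj_comm, hcO y hy hyS x hx, G.adj_comm]
        exact ⟨fun h => h.resolve_right hyP, Or.inl⟩
    intro x y hxy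
    by_cases hx : x ∈ B
    · by_cases hy : y ∈ B
      · exact absurd (setB_in (iff_of_true hx hy)) hxy
      · exact Or.inl (key x y hx hy hxy)
    · by_cases hy : y ∈ B
      · right
        apply key y x hy hx
        rw [H.adj_comm, G.adj_comm]
        exact hxy
      · exact absurd (setB_in (iff_of_false hx hy)) hxy
  · have h1 : (B.biUnion (fun j => (P j).image (fun y => (j, y)))).card ≤
        S.card * h + B.card * (4 * B.card + 3) := by
      refine card_biUnion_le.trans (le_trans ?_ hsumk)
      exact sum_le_sum (fun j hj => card_image_le.trans (hP1 j hj).2.le)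
    have h2 : (S.biUnion (fun s =>
        (symmDiff (κ s) (nb G B s)).image (fun j => (j, s)))).card ≤ S.card * h := by
      refine card_biUnion_le.trans ?_
      rw [← smul_eq_mul, ← sum_const]
      exact sum_le_sum (fun s hs => card_image_le.trans (hκ4 s hs))
    exact (card_union_le _ _).trans (Nat.add_le_add h2 h1)
  · intro x hx
    unfold dg
    calc (univ.filter (fun y => H.Adj x y)).card
        ≤ (univ.filter (fun y => G.Adj x y) ∪ B).card := by
          apply card_le_card
          intro y hy
          rw [mem_filter] at hy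
          by_cases hyB : y ∈ B
          · exact mem_union_right _ hyB
          · have h1 : H.Adj x y ↔ G.Adj x y := setB_in (iff_of_false hx hyB)
            exact mem_union_left _ (mem_filter.mpr ⟨mem_univ _, h1.mp hy.2⟩)
      _ ≤ (univ.filter (fun y => G.Adj x y)).card + B.card := card_union_le _ _
      _ ≤ D + B.card := Nat.add_le_add_right (hlow x hx) _
  · intro j hj
    rw [hdH j hj]
    exact (hfd j hj).2.1
  · intro i hi j hj hij
    rw [hdH i hi, hdH j hj]
    exact hf2 i hi j hj hij
  · intro s hs y hy hys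
    by_contra hcon
    push Not at hcon
    by_cases hyS : y ∈ S
    · apply hys
      refine hκ2 y hyS s hs ?_
      ext j
      constructor
      · intro hj
        have hjB := hκ1 y hyS hj
        exact (hcS s hs j hjB).mp ((hcon j hjB).mpr ((hcS y hyS j hjB).mpr hj))
      · intro hj
        have hjB := hκ1 s hs hj
        exact (hcS y hyS j hjB).mp ((hcon j hjB).mp ((hcS s hs j hjB).mpr hj))
    · have h1 : ∀ j ∈ B, (j ∈ κ s ↔ (G.Adj y j ∨ y ∈ P j)) := by
        intro j hj
        rw [← hcS s hs j hj, hcon j hj, hcO y hy hyS j hj]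
      by_cases hex : ∃ j ∈ B, y ∈ P j
      · obtain ⟨j, hj, hyj⟩ := hex
        apply (hκ3 s hs y).2 j hj
        ext i
        rw [mem_insert]
        unfold nb
        rw [mem_filter]
        constructor
        · intro hi
          have hiB := hκ1 s hs hi
          rcases (h1 i hiB).mp hi with h | h
          · exact Or.inr ⟨hiB, h⟩
          · left
            by_contra hne
            exact Finset.disjoint_left.mp (hP2 i hiB j hj hne) h hyj
        · rintro (h | h)
          · rw [h]
            exact (h1 j hj).mpr (Or.inr hyj)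
          · exact (h1 i h.1).mpr (Or.inl h.2)
      · apply (hκ3 s hs y).1
        ext i
        unfold nb
        rw [mem_filter]
        constructor
        · intro hi
          have hiB := hκ1 s hs hi
          rcases (h1 i hiB).mp hi with h | h
          · exact ⟨hiB, h⟩
          · exact absurd ⟨i, hiB, h⟩ hex
        · rintro ⟨h2, h3⟩
          exact (h1 i h2).mpr (Or.inl h3)

end Pool.Agent.U511.RD
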