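import Pool.Agent.U511.RD.Code

set_option autoImplicit false
set_option linter.unusedSectionVars false

/-!
# Every graph is near to a reconstructible graph
-/

namespace Pool.Agent.U511.RD

open Finset Classical
open Pool.Agent.H234RC (Reconstructible)

variable {V : Type} [Fintype V]

/-- vertices of the largest degrees -/
theorem exists_top (G : SimpleGraph V) (b : ℕ) (hb : b ≤ Fintype.card V) :
    ∃ B : Finset V, B.card = b ∧ ∀ x, x ∉ B → ∀ j ∈ B, dg G x ≤ dg G j := by
  induction b with
  | zero => exact ⟨∅, rfl, by simp⟩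
  | succ b ih =>
    obtain ⟨B, hB, h⟩ := ih (by omega)
    have hne : (univ \ B).Nonempty := by
      rw [← card_pos, card_sdiff_of_subset (subset_univ _), card_univ]
      omega
    obtain ⟨z, hz, hmax⟩ := exists_max_image (univ \ B) (fun x => dg G x) hne
    have hzB : z ∉ B := (mem_sdiff.mp hz).2
    refine ⟨insert z B, by rw [card_insert_of_notMem hzB, hB], ?_⟩
    intro x hx j hj
    rw [mem_insert, not_or] at hx
    rcases mem_insert.mp hj with rfl | hj
    · exact hmax x (mem_sdiff.mpr ⟨mem_univ _, hx.2⟩)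
    · exact h x hx.2 j hj

/-- The change at one vertex to a vertex adjacent to all others. -/
theorem near_univ (G : SimpleGraph V) (hV : 3 ≤ Fintype.card V) (z : V) :
    ∃ H : SimpleGraph V,
      (∀ x y, ¬ (H.Adj x y ↔ G.Adj x y) →
        (x, y) ∈ ({z} : Finset V) ×ˢ univ.filter (fun x => x ≠ z ∧ ¬ G.Adj z x) ∨
        (y, x) ∈ ({z} : Finset V) ×ˢ univ.filter (fun x => x ≠ z ∧ ¬ G.Adj z x)) ∧
      Reconstructible H ∧ Reconstructible Hᶜ := by
  have hz : z ∉ (univ : Finset V).erase z := notMem_erase _ _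
  refine ⟨setNbr G z (univ.erase z), ?_, univ_vertex _ hV z (fun y hy => ?_)⟩
  · have key : ∀ y, ¬ ((setNbr G z (univ.erase z)).Adj z y ↔ G.Adj z y) →
        (z, y) ∈ ({z} : Finset V) ×ˢ univ.filter (fun x => x ≠ z ∧ ¬ G.Adj z x) := by
      intro y hy
      rw [setNbr_v hz, mem_erase] at hy
      rw [mem_product, mem_singleton, mem_filter]
      refine ⟨rfl, mem_univ _, ?_, ?_⟩
      · intro e
        apply hy
        rw [show y = z from e]
        exact iff_of_false (fun h => h.1 rfl) G.irrefl
      · intro h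
        exact hy (iff_of_true ⟨h.ne', mem_univ _⟩ h)
    intro x y hxy
    by_cases hx : x = z
    · left
      rw [hx] at hxy ⊢
      exact key y hxy
    · by_cases hy : y = z
      · right
        rw [hy] at hxy ⊢
        apply key x
        rw [SimpleGraph.adj_comm, G.adj_comm]
        exact hxy
      · exact absurd (setNbr_off hx hy) hxy
  · rw [setNbr_v hz, mem_erase]
    exact ⟨hy, mem_univ _⟩

theorem near (G : SimpleGraph V) (b h s : ℕ) (hs : 1 ≤ s)
    (hcard : b + (3 * b + 1 + s) + 2 ≤ Fintype.card V)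
    (hpow : ∀ B : Finset V, B.card = b → Fintype.card V * (b + 1) + (3 * b + 1 + s) ≤
      (B.powerset.filter (fun Q => Q.card ≤ h)).card) :
    ∃ (H : SimpleGraph V) (Z : Finset V) (Y : Finset (V × V)) (M : ℕ),
      Z.card ≤ b + 1 ∧ (∀ p ∈ Y, p.1 ∈ Z) ∧
      (∀ x y, ¬ (H.Adj x y ↔ G.Adj x y) → (x, y) ∈ Y ∨ (y, x) ∈ Y) ∧
      s * M ≤ Fintype.card V * Nat.log 2 (Fintype.card V) ∧
      Y.card ≤ 2 * ((3 * b + 1 + s) * h) + b * (4 * b + 3) + b + (3 * b + 1 + s) + M ∧
      Reconstructible H ∧ Reconstructible Hᶜ := by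
  set T := 3 * b + 1 + s with hT
  by_cases hz : ∃ z, (univ.filter (fun x => x ≠ z ∧ ¬ G.Adj z x)).card ≤
      T * h + b * (4 * b + 3) + b + T
  · obtain ⟨z, hz⟩ := hz
    obtain ⟨H, hH, hR⟩ := near_univ G (by omega) z
    refine ⟨H, {z}, ({z} : Finset V) ×ˢ univ.filter (fun x => x ≠ z ∧ ¬ G.Adj z x), 0,
      by rw [card_singleton]; omega, fun p hp => (mem_product.mp hp).1, hH, by omega, ?_, hR⟩
    rw [card_product, card_singleton, one_mul]
    omega
  · push Not at hz
    obtain ⟨B, hBc, hBtop⟩ := exists_top G b (by omega)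
    have hcB : (univ \ B).card = Fintype.card V - b := by
      rw [card_sdiff_of_subset (subset_univ _), card_univ, hBc]
    obtain ⟨S, hS, hSc⟩ := exists_subset_card_eq (s := univ \ B) (n := T) (by omega)
    have hSB : Disjoint B S := by
      rw [Finset.disjoint_left]
      intro x hx hxS
      exact (mem_sdiff.mp (hS hxS)).2 hx
    let D := (univ \ B).sup (fun x => dg G x)
    obtain ⟨H1, X, hX1, hX2, hX3, hlow, hhigh, hsep, hcode⟩ := stage1 G B S D h hSB
      (by rw [hBc, hSc]; exact hpow B hBc)
      (fun x hx => le_sup (f := fun x => dg G x) (mem_sdiff.mpr ⟨mem_univ _, hx⟩))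
      (fun j hj => by
        apply Finset.sup_le
        intro x hx
        exact hBtop x (mem_sdiff.mp hx).2 j hj)
      (fun j hj => by
        have h1 := hz j
        have h2 : (univ.filter (fun x => x ≠ j ∧ ¬ G.Adj j x)).card ≤
            ((univ.filter (fun x => x ∉ B ∧ x ∉ S ∧ ¬ G.Adj j x)) ∪ (B ∪ S)).card := by
          apply card_le_card
          intro x hx
          rw [mem_filter] at hx
          by_cases hxB : x ∈ B
          · exact mem_union_right _ (mem_union_left _ hxB)
          · by_cases hxS : x ∈ S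
            · exact mem_union_right _ (mem_union_right _ hxS)
            · exact mem_union_left _ (mem_filter.mpr ⟨mem_univ _, hxB, hxS, hx.2.2⟩)
        have h3 := card_union_le (univ.filter (fun x => x ∉ B ∧ x ∉ S ∧ ¬ G.Adj j x)) (B ∪ S)
        have h4 := card_union_le B S
        rw [hBc, hSc]
        rw [hBc, hSc] at h4
        omega)
    rw [hBc] at hlow hhigh
    rw [hBc, hSc] at hX3
    let e := S.equivFin
    let u : ℕ → V := fun i => if hi : i < S.card then ((e.symm ⟨i, hi⟩ : S) : V) else
      ((e.symm ⟨0, by omega⟩ : S) : V)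
    have huS : ∀ i < T, u i ∈ S := by
      intro i hi
      have hi' : i < S.card := by omega
      show (if hi : i < S.card then ((e.symm ⟨i, hi⟩ : S) : V) else
        ((e.symm ⟨0, by omega⟩ : S) : V)) ∈ S
      rw [dif_pos hi']
      exact (e.symm ⟨i, hi'⟩).2
    have huinj : ∀ i < T, ∀ j < T, u i = u j → i = j := by
      intro i hi j hj hij
      have hi' : i < S.card := by omega
      have hj' : j < S.card := by omega
      change (if hi : i < S.card then ((e.symm ⟨i, hi⟩ : S) : V) else
        ((e.symm ⟨0, by omega⟩ : S) : V)) = (if hi : j < S.card then ((e.symm ⟨j, hi⟩ : S) : V) else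
        ((e.symm ⟨0, by omega⟩ : S) : V)) at hij
      rw [dif_pos hi', dif_pos hj'] at hij
      have h1 := e.symm.injective (Subtype.ext hij)
      exact congrArg Fin.val h1
    obtain ⟨H, v, X', M, hH1, hH2, hM, hX', hR⟩ := stage2 H1 B s (D + b) hs u
      (by
        rw [hBc]
        intro i hi h
        exact Finset.disjoint_left.mp hSB h (huS i hi))
      (by rw [hBc]; exact huinj) (by rw [hBc]; exact hcard) hlow
      (fun j hj => hhigh j hj) hsep
      (by
        rw [hBc]
        intro i hi y hy hyu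
        exact hcode (u i) (huS i hi) y hy hyu)
    rw [hBc] at hX'
    refine ⟨H, insert v B, X ∪ X'.image (fun x => (v, x)), M, ?_, ?_, ?_, hM, ?_, hR⟩
    · exact (card_insert_le _ _).trans (by omega)
    · intro p hp
      rcases mem_union.mp hp with hp | hp
      · exact mem_insert_of_mem (hX1 p hp)
      · obtain ⟨x, _, rfl⟩ := mem_image.mp hp
        exact mem_insert_self _ _
    · have key : ∀ y, ¬ (H.Adj v y ↔ H1.Adj v y) → (v, y) ∈ X ∪ X'.image (fun x => (v, x)) := by
        intro y hy
        apply mem_union_right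
        refine mem_image.mpr ⟨y, ?_, rfl⟩
        by_contra hyX
        exact hy (hH2 y hyX)
      intro x y hxy
      by_cases h1 : (H1.Adj x y ↔ G.Adj x y)
      · rw [← h1] at hxy
        by_cases hx : x = v
        · left
          rw [hx] at hxy ⊢
          exact key y hxy
        · by_cases hy : y = v
          · right
            rw [hy] at hxy ⊢
            apply key x
            rw [H.adj_comm, H1.adj_comm]
            exact hxy
          · exact absurd (hH1 x y hx hy) hxy
      · rcases hX2 x y h1 with h2 | h2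
        · exact Or.inl (mem_union_left _ h2)
        · exact Or.inr (mem_union_left _ h2)
    · have h1 := card_union_le X (X'.image (fun x => (v, x)))
      have h2 := card_image_le (s := X') (f := fun x => (v, x))
      omega

/-- the number of changed edges -/
theorem changed_le (G H : SimpleGraph V) (Y : Finset (V × V))
    (hY : ∀ x y, ¬ (H.Adj x y ↔ G.Adj x y) → (x, y) ∈ Y ∨ (y, x) ∈ Y) :
    (symmDiff G.edgeSet H.edgeSet).ncard ≤ Y.card := by
  have h1 : symmDiff G.edgeSet H.edgeSet ⊆ ((Y.image (fun p => s(p.1, p.2)) : Finset (Sym2 V)) :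
      Set (Sym2 V)) := by
    intro e he
    induction e using Sym2.ind with
    | h x y =>
      have h2 : ¬ (H.Adj x y ↔ G.Adj x y) := by
        intro h
        rw [Set.mem_symmDiff, SimpleGraph.mem_edgeSet, SimpleGraph.mem_edgeSet, h] at he
        tauto
      rw [mem_coe, mem_image]
      rcases hY x y h2 with h3 | h3
      · exact ⟨(x, y), h3, rfl⟩
      · exact ⟨(y, x), h3, Sym2.eq_swap⟩
  calc (symmDiff G.edgeSet H.edgeSet).ncard
      ≤ ((Y.image (fun p => s(p.1, p.2)) : Finset (Sym2 V)) : Set (Sym2 V)).ncard :=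
        Set.ncard_le_ncard h1 (Finset.finite_toSet _)
    _ = (Y.image (fun p => s(p.1, p.2))).card := Set.ncard_coe_finset _
    _ ≤ Y.card := card_image_le

theorem changed_meets (G H : SimpleGraph V) (Y : Finset (V × V)) (Z : Finset V)
    (hZ : ∀ p ∈ Y, p.1 ∈ Z)
    (hY : ∀ x y, ¬ (H.Adj x y ↔ G.Adj x y) → (x, y) ∈ Y ∨ (y, x) ∈ Y) :
    ∀ e ∈ symmDiff G.edgeSet H.edgeSet, ∃ z ∈ Z, z ∈ e := by
  intro e he
  induction e using Sym2.ind with
  | h x y =>
    have h2 : ¬ (H.Adj x y ↔ G.Adj x y) := by
      intro h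
      rw [Set.mem_symmDiff, SimpleGraph.mem_edgeSet, SimpleGraph.mem_edgeSet, h] at he
      tauto
    rcases hY x y h2 with h3 | h3
    · exact ⟨x, hZ _ h3, Sym2.mem_mk_left x y⟩
    · exact ⟨y, hZ _ h3, Sym2.mem_mk_right x y⟩

theorem small (G : SimpleGraph V) (hV : 3 ≤ Fintype.card V) :
    ∃ (H : SimpleGraph V) (Z : Finset V), Z.card = 1 ∧
      (symmDiff G.edgeSet H.edgeSet).ncard ≤ Fintype.card V ∧
      (∀ e ∈ symmDiff G.edgeSet H.edgeSet, ∃ z ∈ Z, z ∈ e) ∧
      Reconstructible H ∧ Reconstructible Hᶜ := by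
  haveI : Nonempty V := Fintype.card_pos_iff.mp (by omega)
  obtain ⟨z⟩ := ‹Nonempty V›
  obtain ⟨H, hH, hR⟩ := near_univ G hV z
  refine ⟨H, {z}, card_singleton _, ?_, ?_, hR⟩
  · refine (changed_le G H _ hH).trans ?_
    rw [card_product, card_singleton, one_mul]
    exact card_le_univ _
  · exact changed_meets G H _ {z} (fun p hp => (mem_product.mp hp).1) hH

end Pool.Agent.U511.RD
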