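import Pool.Agent.U511.RD.Near

set_option autoImplicit false
set_option linter.unusedSectionVars false

/-!
# The choice of the parameters
-/

namespace Pool.Agent.U511.RD

open Finset Classical
open Pool.Agent.H234RC (Reconstructible)

theorem log2_le (n : ℕ) (hn : 1 ≤ n) : (Nat.log 2 n : ℝ) ≤ 1.45 * Real.log n := by
  have h1 : (2 : ℝ) ^ (Nat.log 2 n) ≤ n := by
    exact_mod_cast Nat.pow_log_le_self 2 (by omega)
  have h2 : (Nat.log 2 n : ℝ) * Real.log 2 ≤ Real.log n := by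
    rw [← Real.log_pow]
    exact Real.log_le_log (by positivity) h1
  have h3 := Real.log_two_gt_d9
  have h4 : (Nat.log 2 n : ℝ) * 0.6931471803 ≤ (Nat.log 2 n : ℝ) * Real.log 2 :=
    mul_le_mul_of_nonneg_left h3.le (by positivity)
  have h5 : (0 : ℝ) ≤ Nat.log 2 n := by positivity
  nlinarith

theorem log_le_two_sqrt (n : ℕ) (hn : 1 ≤ n) : Real.log n ≤ 2 * √(n : ℝ) := by
  have hn' : (1 : ℝ) ≤ n := by exact_mod_cast hn
  have h0 : (0 : ℝ) < √(n : ℝ) := Real.sqrt_pos.mpr (by linarith)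
  have h1 : Real.log n = 2 * Real.log (√(n : ℝ)) := by
    conv_lhs => rw [← Real.sq_sqrt (show (0 : ℝ) ≤ n by linarith)]
    rw [Real.log_pow]
    norm_num
  have h2 := Real.log_le_sub_one_of_pos h0
  linarith

theorem one_le_log (n : ℕ) (hn : 3 ≤ n) : 1 ≤ Real.log n := by
  have h1 : Real.exp 1 ≤ n := by
    have := Real.exp_one_lt_d9
    have h2 : (3 : ℝ) ≤ n := by exact_mod_cast hn
    linarith
  have h2 := Real.log_le_log (Real.exp_pos 1) h1
  rwa [Real.log_exp] at h2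

/-- the parameters for the bound on the number of the edges -/
theorem numA (n : ℕ) (hn : 1440000 ≤ n) : ∃ b s : ℕ, 1 ≤ s ∧ b + (3 * b + 1 + s) + 2 ≤ n ∧
    n * (b + 1) + (3 * b + 1 + s) ≤ b.choose 6 ∧
    ∀ M : ℕ, s * M ≤ n * Nat.log 2 n →
      ((2 * ((3 * b + 1 + s) * 6) + b * (4 * b + 3) + b + (3 * b + 1 + s) + M : ℕ) : ℝ) ≤
        6900 * √(n * Real.log n) := by
  obtain ⟨L, hL⟩ : ∃ L, L = Nat.log 2 n := ⟨_, rfl⟩
  have hL1 : 1 ≤ L := by
    rw [hL]
    exact Nat.log_pos (by norm_num) (by omega)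
  have hLr : (L : ℝ) ≤ 1.45 * Real.log n := by
    rw [hL]
    exact log2_le n (by omega)
  rw [← hL]
  clear hL
  obtain ⟨p, hp1, hp2⟩ : ∃ p, p * p ≤ n ∧ n < (p + 1) * (p + 1) :=
    ⟨Nat.sqrt n, Nat.sqrt_le n, Nat.lt_succ_sqrt n⟩
  obtain ⟨g, hg1, hg2⟩ : ∃ g, g * g ≤ p ∧ p < (g + 1) * (g + 1) :=
    ⟨Nat.sqrt p, Nat.sqrt_le p, Nat.lt_succ_sqrt p⟩
  obtain ⟨s, hs1, hs2⟩ : ∃ s, s * s ≤ n * L ∧ n * L < (s + 1) * (s + 1) :=
    ⟨Nat.sqrt (n * L), Nat.sqrt_le _, Nat.lt_succ_sqrt _⟩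
  have hnL : n ≤ n * L := Nat.le_mul_of_pos_right n hL1
  have hs0 : 1 ≤ s := by
    by_contra h
    have : s = 0 := by omega
    subst this
    omega
  have hp3 : 1200 ≤ p := by
    by_contra h
    have h1 : (p + 1) * (p + 1) ≤ 1200 * 1200 := Nat.mul_le_mul (by omega) (by omega)
    omega
  have hg3 : 4 ≤ g := by
    by_contra h
    have h1 : (g + 1) * (g + 1) ≤ 4 * 4 := Nat.mul_le_mul (by omega) (by omega)
    omega
  -- real quantities
  obtain ⟨r, hr⟩ : ∃ r, r = √(n : ℝ) := ⟨_, rfl⟩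
  have hn' : (1440000 : ℝ) ≤ n := by exact_mod_cast hn
  have hr2 : r ^ 2 = n := by
    rw [hr]
    exact Real.sq_sqrt (by linarith)
  have hr0 : 0 ≤ r := by
    rw [hr]
    exact Real.sqrt_nonneg _
  have hr1 : 1200 ≤ r := by
    rw [hr]
    apply Real.le_sqrt_of_sq_le
    norm_num
    linarith
  obtain ⟨x, hx⟩ : ∃ x, x = Real.log n := ⟨_, rfl⟩
  have hlog2 : x ≤ 2 * r := by
    rw [hx, hr]
    exact log_le_two_sqrt n (by omega)
  have hlog1 : 1 ≤ x := by
    rw [hx]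
    exact one_le_log n (by omega)
  rw [← hx] at hLr ⊢
  have hL1r : (1 : ℝ) ≤ L := by exact_mod_cast hL1
  have hpr : (p : ℝ) ≤ r := by
    rw [hr]
    apply Real.le_sqrt_of_sq_le
    rw [sq]
    exact_mod_cast hp1
  have hgp : (g : ℝ) ^ 2 ≤ p := by
    rw [sq]
    exact_mod_cast hg1
  obtain ⟨b, hb⟩ : ∃ b, b = 3 * g + 8 := ⟨_, rfl⟩
  have hbr : (b : ℝ) = 3 * (g : ℝ) + 8 := by
    rw [hb]
    push_cast
    ring
  have hb2 : (b : ℝ) ^ 2 ≤ 19 * r := by
    have h1 : (b : ℝ) ^ 2 ≤ 18 * (g : ℝ) ^ 2 + 128 := by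
      rw [hbr]
      have := sq_nonneg (3 * (g : ℝ) - 8)
      linarith [this, show (3 * (g : ℝ) + 8) ^ 2 + (3 * (g : ℝ) - 8) ^ 2 = 18 * (g : ℝ) ^ 2 + 128 by
        ring]
    linarith
  have hb1 : (1 : ℝ) ≤ b := by
    have : 1 ≤ b := by omega
    exact_mod_cast this
  have hbb : (b : ℝ) ≤ (b : ℝ) ^ 2 := by
    rw [sq]
    exact le_mul_of_one_le_left (by linarith) hb1
  have hsr : (s : ℝ) ^ 2 ≤ n * L := by
    rw [sq]
    exact_mod_cast hs1
  obtain ⟨w, hw⟩ : ∃ w, w = √(n * x) := ⟨_, rfl⟩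
  rw [← hw]
  have hn0 : (0 : ℝ) ≤ n := by linarith
  have hw2 : w ^ 2 = n * x := by
    rw [hw]
    exact Real.sq_sqrt (mul_nonneg hn0 (by linarith))
  have hw0 : 0 ≤ w := by
    rw [hw]
    exact Real.sqrt_nonneg _
  have hnLx : (n : ℝ) * L ≤ n * (1.45 * x) := mul_le_mul_of_nonneg_left hLr hn0
  have hsw : (s : ℝ) ≤ 1.21 * w := by
    refine le_of_sq_le_sq ?_ (by positivity)
    have h1 : (1.21 * w) ^ 2 = 1.4641 * (n * x) := by
      rw [mul_pow, hw2]
      norm_num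
    have h2 : (n : ℝ) * (1.45 * x) = 1.45 * (n * x) := by ring
    have h3 : 0 ≤ (n : ℝ) * x := mul_nonneg hn0 (by linarith)
    linarith
  have hrw : r ≤ w := by
    rw [hr, hw]
    apply Real.sqrt_le_sqrt
    exact le_mul_of_one_le_right hn0 hlog1
  have hsn : (s : ℝ) ≤ n / 2 := by
    refine le_of_sq_le_sq ?_ (by positivity)
    have h3 : 2.9 * r ≤ (n : ℝ) / 4 := by
      rw [← hr2, sq]
      nlinarith
    have h4 : (n : ℝ) * (1.45 * x) ≤ n * (n / 4) :=
      mul_le_mul_of_nonneg_left (by linarith) hn0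
    have h5 : ((n : ℝ) / 2) ^ 2 = n * (n / 4) := by ring
    linarith
  have hrn : 100 * r ≤ (n : ℝ) / 2 := by
    rw [← hr2, sq]
    nlinarith
  have hc2 : b + (3 * b + 1 + s) + 2 ≤ n := by
    have h1 : (b : ℝ) + (3 * b + 1 + s) + 2 ≤ n := by linarith
    exact_mod_cast h1
  refine ⟨b, s, hs0, hc2, ?_, ?_⟩
  · -- the codes
    obtain ⟨q, hq⟩ : ∃ q, q = g + 1 := ⟨_, rfl⟩
    have h3 : n < (q * q) * (q * q) := by
      refine hp2.trans_le (Nat.mul_le_mul ?_ ?_) <;>
      · rw [hq]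
        omega
    have h4 : n * (b + 1) + (3 * b + 1 + s) ≤ n * (b + 2) := by
      have : n * (b + 2) = n * (b + 1) + n := by ring
      omega
    have h5 : n * (b + 2) ≤ q ^ 6 := by
      have h6 : b + 2 ≤ q * q := by
        have h7 : 5 * q ≤ q * q := Nat.mul_le_mul_right q (by omega)
        omega
      calc n * (b + 2) ≤ ((q * q) * (q * q)) * (q * q) := Nat.mul_le_mul h3.le h6
        _ = q ^ 6 := by ring
    have h7 : q ^ 6 ≤ b.choose 6 := by
      have h8 := Nat.pow_sub_le_descFactorial b 6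
      rw [Nat.descFactorial_eq_factorial_mul_choose] at h8
      have h9 : b + 1 - 6 = 3 * q := by omega
      rw [h9] at h8
      have h10 : Nat.factorial 6 = 720 := by decide
      rw [h10] at h8
      have h11 : (3 * q) ^ 6 = 729 * q ^ 6 := by ring
      rw [h11] at h8
      omega
    omega
  · intro M hM
    have hMs : M ≤ s + 2 := by
      have h2 : s * M ≤ s * (s + 2) := by
        have : s * (s + 2) + 1 = (s + 1) * (s + 1) := by ring
        omega
      exact Nat.le_of_mul_le_mul_left h2 (by omega)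
    have hMr : (M : ℝ) ≤ s + 2 := by exact_mod_cast hMs
    push_cast
    have h1 : 2 * ((3 * (b : ℝ) + 1 + s) * 6) + b * (4 * b + 3) + b + (3 * b + 1 + s) + M =
        4 * (b : ℝ) ^ 2 + 43 * b + 13 * s + 13 + M := by ring
    rw [h1]
    linarith

/-- the parameters for the bound on the number of the vertices -/
theorem numB (n : ℕ) (hn : 1440000 ≤ n) : ∃ b s : ℕ, 1 ≤ s ∧ b + (3 * b + 1 + s) + 2 ≤ n ∧
    n * (b + 1) + (3 * b + 1 + s) ≤ 2 ^ b ∧ ((b + 1 : ℕ) : ℝ) ≤ 7 * Real.log n ∧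
    ∀ M : ℕ, s * M ≤ n * Nat.log 2 n →
      ((2 * ((3 * b + 1 + s) * b) + b * (4 * b + 3) + b + (3 * b + 1 + s) + M : ℕ) : ℝ) ≤
        1200 * √n * Real.log n := by
  obtain ⟨L, hL⟩ : ∃ L, L = Nat.log 2 n := ⟨_, rfl⟩
  have hL1 : 1 ≤ L := by
    rw [hL]
    exact Nat.log_pos (by norm_num) (by omega)
  have hLr' : (L : ℝ) ≤ 1.45 * Real.log n := by
    rw [hL]
    exact log2_le n (by omega)
  have hLp : n + 1 ≤ 2 ^ (L + 1) := by
    rw [hL]
    exact Nat.lt_pow_succ_log_self (by norm_num) n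
  rw [← hL]
  clear hL
  obtain ⟨s, hs1, hs2⟩ : ∃ s, s * s ≤ n ∧ n < (s + 1) * (s + 1) :=
    ⟨Nat.sqrt n, Nat.sqrt_le n, Nat.lt_succ_sqrt n⟩
  have hs0 : 1200 ≤ s := by
    by_contra h
    have h1 : (s + 1) * (s + 1) ≤ 1200 * 1200 := Nat.mul_le_mul (by omega) (by omega)
    omega
  obtain ⟨r, hr⟩ : ∃ r, r = √(n : ℝ) := ⟨_, rfl⟩
  have hn' : (1440000 : ℝ) ≤ n := by exact_mod_cast hn
  have hr2 : r ^ 2 = n := by
    rw [hr]
    exact Real.sq_sqrt (by linarith)
  have hr0 : 0 ≤ r := by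
    rw [hr]
    exact Real.sqrt_nonneg _
  have hr1 : 1200 ≤ r := by
    rw [hr]
    apply Real.le_sqrt_of_sq_le
    norm_num
    linarith
  obtain ⟨x, hx⟩ : ∃ x, x = Real.log n := ⟨_, rfl⟩
  have hlog2 : x ≤ 2 * r := by
    rw [hx, hr]
    exact log_le_two_sqrt n (by omega)
  have hlog1 : 1 ≤ x := by
    rw [hx]
    exact one_le_log n (by omega)
  have hLr : (L : ℝ) ≤ 1.45 * x := by
    rw [hx]
    exact hLr'
  rw [← hx, ← hr]
  have hL0 : (0 : ℝ) ≤ L := by positivity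
  have hsr : (s : ℝ) ≤ r := by
    rw [hr]
    apply Real.le_sqrt_of_sq_le
    rw [sq]
    exact_mod_cast hs1
  obtain ⟨b, hb⟩ : ∃ b, b = 2 * L + 3 := ⟨_, rfl⟩
  have hbr : (b : ℝ) ≤ 5.9 * x := by
    rw [hb]
    push_cast
    linarith
  have hb0 : (0 : ℝ) ≤ b := by positivity
  have hbr' : (b : ℝ) ≤ 11.8 * r := by linarith
  have hrn : 100 * r ≤ (n : ℝ) := by
    rw [← hr2, sq]
    nlinarith
  have hc2 : b + (3 * b + 1 + s) + 2 ≤ n := by
    have h1 : (b : ℝ) + (3 * b + 1 + s) + 2 ≤ n := by linarith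
    exact_mod_cast h1
  refine ⟨b, s, by omega, hc2, ?_, ?_, ?_⟩
  · have h2 : ∀ k, 1 ≤ k → 2 * k + 5 ≤ 2 ^ (k + 2) := by
      intro k hk
      induction k with
      | zero => omega
      | succ k ih =>
        rcases Nat.eq_zero_or_pos k with h0 | h0
        · subst h0
          norm_num
        · have := ih h0
          rw [show k + 1 + 2 = k + 2 + 1 by ring, pow_succ]
          omega
    calc n * (b + 1) + (3 * b + 1 + s) ≤ n * (b + 2) := by
          have : n * (b + 2) = n * (b + 1) + n := by ring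
          omega
      _ ≤ 2 ^ (L + 1) * 2 ^ (L + 2) := Nat.mul_le_mul (by omega) (by
          have := h2 L hL1
          omega)
      _ = 2 ^ b := by
          rw [← pow_add]
          congr 1
          omega
  · push_cast
    linarith
  · intro M hM
    have hMs : M ≤ (s + 2) * L := by
      have h2 : n ≤ s * (s + 2) := by
        have : s * (s + 2) + 1 = (s + 1) * (s + 1) := by ring
        omega
      have h3 : s * M ≤ s * ((s + 2) * L) := by
        calc s * M ≤ n * L := hM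
          _ ≤ (s * (s + 2)) * L := Nat.mul_le_mul_right _ h2
          _ = s * ((s + 2) * L) := by ring
      exact Nat.le_of_mul_le_mul_left h3 (by omega)
    have hMr : (M : ℝ) ≤ (s + 2) * L := by exact_mod_cast hMs
    have hM2 : (M : ℝ) ≤ 4.35 * (r * x) := by
      have h1 : ((s : ℝ) + 2) * L ≤ (3 * r) * (1.45 * x) :=
        mul_le_mul (by linarith) hLr hL0 (by positivity)
      linarith
    have hT : (3 * (b : ℝ) + 1 + s) ≤ 37.4 * r := by linarith
    have h1 : (3 * (b : ℝ) + 1 + s) * b ≤ (37.4 * r) * (5.9 * x) :=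
      mul_le_mul hT hbr hb0 (by positivity)
    have h2 : (b : ℝ) * b ≤ (11.8 * r) * (5.9 * x) := mul_le_mul hbr' hbr hb0 (by positivity)
    have h3 : r ≤ r * x := le_mul_of_one_le_right hr0 hlog1
    have h4 : (b : ℝ) ≤ b * b := by
      have : (1 : ℝ) ≤ b := by
        have : 1 ≤ b := by omega
        exact_mod_cast this
      exact le_mul_of_one_le_left hb0 this
    have h5 : 0 ≤ r * x := by positivity
    push_cast
    have h6 : 2 * ((3 * (b : ℝ) + 1 + s) * b) + b * (4 * b + 3) + b + (3 * b + 1 + s) + M =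
        2 * ((3 * (b : ℝ) + 1 + s) * b) + 4 * (b * b) + 4 * b + (3 * b + 1 + s) + M := by ring
    rw [h6, mul_assoc]
    linarith

variable {V : Type} [Fintype V]

theorem finalA (G : SimpleGraph V) (hV : 3 ≤ Fintype.card V) : ∃ H : SimpleGraph V,
    ((symmDiff G.edgeSet H.edgeSet).ncard : ℝ) ≤
      6900 * √(Fintype.card V * Real.log (Fintype.card V)) ∧
    Reconstructible H ∧ Reconstructible Hᶜ := by
  set n := Fintype.card V with hn
  rcases le_or_gt 1440000 n with hbig | hsm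
  · obtain ⟨b, s, hs, hc, hp, hW⟩ := numA n hbig
    obtain ⟨H, Z, Y, M, -, -, hY, hM, hYc, hR⟩ := near G b 6 s hs hc (fun B hB => by
      refine hp.trans ?_
      have h1 : B.powersetCard 6 ⊆ B.powerset.filter (fun Q => Q.card ≤ 6) := by
        intro Q hQ
        rw [mem_powersetCard] at hQ
        rw [mem_filter, mem_powerset]
        exact ⟨hQ.1, hQ.2.le⟩
      have h2 := card_le_card h1
      rw [card_powersetCard, hB] at h2
      exact h2)
    refine ⟨H, ?_, hR⟩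
    have h1 := (changed_le G H Y hY).trans hYc
    exact le_trans (by exact_mod_cast h1) (hW M hM)
  · obtain ⟨H, Z, _, h2, _, hR⟩ := small G hV
    refine ⟨H, ?_, hR⟩
    have h2' : ((symmDiff G.edgeSet H.edgeSet).ncard : ℝ) ≤ n := by exact_mod_cast h2
    refine h2'.trans ?_
    have hn3 : (3 : ℝ) ≤ n := by exact_mod_cast hV
    have hl := one_le_log n hV
    have h3 : √(n : ℝ) ≤ √(n * Real.log n) := by
      apply Real.sqrt_le_sqrt
      nlinarith
    have h4 : (n : ℝ) = √(n : ℝ) * √(n : ℝ) := (Real.mul_self_sqrt (by linarith)).symm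
    have h5 : √(n : ℝ) ≤ 1200 := by
      have h7 : (n : ℝ) ≤ 1440000 := by exact_mod_cast hsm.le
      rw [Real.sqrt_le_iff]
      exact ⟨by norm_num, by norm_num; linarith⟩
    have h6 : 0 ≤ √(n : ℝ) := Real.sqrt_nonneg _
    nlinarith

theorem finalB (G : SimpleGraph V) (hV : 3 ≤ Fintype.card V) :
    ∃ (H : SimpleGraph V) (Z : Finset V), (Z.card : ℝ) ≤ 7 * Real.log (Fintype.card V) ∧
    (∀ e ∈ symmDiff G.edgeSet H.edgeSet, ∃ z ∈ Z, z ∈ e) ∧
    ((symmDiff G.edgeSet H.edgeSet).ncard : ℝ) ≤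
      1200 * √(Fintype.card V) * Real.log (Fintype.card V) ∧
    Reconstructible H ∧ Reconstructible Hᶜ := by
  set n := Fintype.card V with hn
  rcases le_or_gt 1440000 n with hbig | hsm
  · obtain ⟨b, s, hs, hc, hp, hZb, hW⟩ := numB n hbig
    obtain ⟨H, Z, Y, M, hZ, hYZ, hY, hM, hYc, hR⟩ := near G b b s hs hc (fun B hB => by
      refine hp.trans ?_
      rw [filter_true_of_mem (fun Q hQ => by
        rw [← hB]
        exact card_le_card (mem_powerset.mp hQ)), card_powerset, hB])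
    refine ⟨H, Z, ?_, changed_meets G H Y Z hYZ hY, ?_, hR⟩
    · exact le_trans (by exact_mod_cast hZ) hZb
    · have h1 := (changed_le G H Y hY).trans hYc
      exact le_trans (by exact_mod_cast h1) (hW M hM)
  · obtain ⟨H, Z, h1, h2, h3, hR⟩ := small G hV
    have hl := one_le_log n hV
    refine ⟨H, Z, ?_, h3, ?_, hR⟩
    · rw [h1]
      push_cast
      linarith
    have h2' : ((symmDiff G.edgeSet H.edgeSet).ncard : ℝ) ≤ n := by exact_mod_cast h2
    refine h2'.trans ?_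
    have hn3 : (3 : ℝ) ≤ n := by exact_mod_cast hV
    have h4 : (n : ℝ) = √(n : ℝ) * √(n : ℝ) := (Real.mul_self_sqrt (by linarith)).symm
    have h5 : √(n : ℝ) ≤ 1200 := by
      have h7 : (n : ℝ) ≤ 1440000 := by exact_mod_cast hsm.le
      rw [Real.sqrt_le_iff]
      exact ⟨by norm_num, by norm_num; linarith⟩
    have h6 : 0 ≤ √(n : ℝ) := Real.sqrt_nonneg _
    nlinarith

end Pool.Agent.U511.RD
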