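import Pool.Agent.U511.RD.Tm

set_option autoImplicit false
set_option linter.unusedSectionVars false

/-!
# One vertex whose neighbourhood is nearly determined by few vertices

For a sequence `u 0, u 1, ...` of vertices the neighbourhoods of `u t` are on average nearly unions of
classes of vertices with the same neighbours in `u 0, ..., u (t - 1)` (entropy argument).
-/

namespace Pool.Agent.U511.RD

open Finset Classical
open Pool.Agent.H234RC (Reconstructible)

variable {V : Type} [Fintype V]

/-- The vertices with the same neighbours in `A` as `x`. -/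
noncomputable def cls (G : SimpleGraph V) (A : Finset V) (x : V) : Finset V :=
  univ.filter (fun y => ∀ a ∈ A, (G.Adj x a ↔ G.Adj y a))

/-- More than half of the class of `x` is adjacent to `v`. -/
def maj (G : SimpleGraph V) (A : Finset V) (v x : V) : Prop :=
  (cls G A x).card < 2 * ((cls G A x).filter (fun y => G.Adj v y)).card

/-- The vertices whose adjacency to `v` is not the one of the majority of their class. -/
noncomputable def exc (G : SimpleGraph V) (A : Finset V) (v : V) : Finset V :=
  univ.filter (fun x => ¬ (G.Adj v x ↔ maj G A v x))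

theorem mem_cls_self (G : SimpleGraph V) (A : Finset V) (x : V) : x ∈ cls G A x := by
  simp [cls]

theorem cls_insert (G : SimpleGraph V) (A : Finset V) (v x : V) :
    cls G (insert v A) x = (cls G A x).filter (fun y => (G.Adj x v ↔ G.Adj y v)) := by
  ext y
  simp only [cls, mem_filter, mem_univ, true_and, mem_insert, forall_eq_or_imp]
  tauto

theorem two_mul_cls (G : SimpleGraph V) (A : Finset V) (v x : V) (hx : x ∈ exc G A v) :
    2 * (cls G (insert v A) x).card ≤ (cls G A x).card := by
  unfold exc at hx
  rw [mem_filter] at hx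
  have hx := hx.2
  rw [cls_insert]
  have hadd := card_filter_add_card_filter_not (s := cls G A x) (fun y => G.Adj v y)
  by_cases h : G.Adj v x
  · have hm : ¬ maj G A v x := fun hm => hx (iff_of_true h hm)
    unfold maj at hm
    have : (cls G A x).filter (fun y => (G.Adj x v ↔ G.Adj y v)) =
        (cls G A x).filter (fun y => G.Adj v y) := by
      apply filter_congr
      intro y _
      rw [G.adj_comm x v, G.adj_comm y v]
      exact ⟨fun h1 => h1.mp h, fun h1 => iff_of_true h h1⟩
    rw [this]
    omega
  · have hm : maj G A v x := by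
      by_contra hm
      exact hx (iff_of_false h hm)
    unfold maj at hm
    have : (cls G A x).filter (fun y => (G.Adj x v ↔ G.Adj y v)) =
        (cls G A x).filter (fun y => ¬ G.Adj v y) := by
      apply filter_congr
      intro y _
      rw [G.adj_comm x v, G.adj_comm y v]
      exact ⟨fun h1 h2 => h (h1.mpr h2), fun h1 => iff_of_false h h1⟩
    rw [this]
    omega

/-- the potential -/
noncomputable def pot (G : SimpleGraph V) (A : Finset V) : ℕ :=
  ∑ x, Nat.log 2 (cls G A x).card

theorem pot_step (G : SimpleGraph V) (A : Finset V) (v : V) :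
    (exc G A v).card + pot G (insert v A) ≤ pot G A := by
  unfold pot
  rw [← sum_boole_mul_card_aux (exc G A v), ← sum_add_distrib]
  apply sum_le_sum
  intro x _
  have hmono : Nat.log 2 (cls G (insert v A) x).card ≤ Nat.log 2 (cls G A x).card := by
    apply Nat.log_mono_right
    rw [cls_insert]
    exact card_filter_le _ _
  by_cases hx : x ∈ exc G A v
  · rw [if_pos hx]
    have h1 := two_mul_cls G A v x hx
    have h2 : (cls G (insert v A) x).card ≠ 0 := by
      rw [← Nat.pos_iff_ne_zero, card_pos]
      exact ⟨x, mem_cls_self G _ x⟩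
    have h3 := Nat.log_mul_base (b := 2) (by norm_num) h2
    have h4 : Nat.log 2 ((cls G (insert v A) x).card * 2) ≤ Nat.log 2 (cls G A x).card :=
      Nat.log_mono_right (by omega)
    omega
  · rw [if_neg hx]
    omega
where
  sum_boole_mul_card_aux (S : Finset V) : (∑ x : V, if x ∈ S then 1 else 0) = S.card := by
    rw [sum_boole]
    simp

theorem pot_le (G : SimpleGraph V) (A : Finset V) :
    pot G A ≤ Fintype.card V * Nat.log 2 (Fintype.card V) := by
  unfold pot
  calc ∑ x, Nat.log 2 (cls G A x).card ≤ ∑ _x : V, Nat.log 2 (Fintype.card V) :=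
        sum_le_sum (fun x _ => Nat.log_mono_right (card_le_univ _))
    _ = _ := by rw [sum_const, card_univ, smul_eq_mul]

/-- the sets of the first `t` members of the sequence, and the base -/
noncomputable def fs (B : Finset V) (u : ℕ → V) (t : ℕ) : Finset V := B ∪ (range t).image u

theorem fs_succ (B : Finset V) (u : ℕ → V) (t : ℕ) : fs B u (t + 1) = insert (u t) (fs B u t) := by
  unfold fs
  rw [range_add_one, image_insert, union_insert]

theorem exists_small (G : SimpleGraph V) (B : Finset V) (u : ℕ → V) (t0 s : ℕ) (hs : 1 ≤ s) :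
    ∃ t, t0 ≤ t ∧ t < t0 + s ∧
      s * (exc G (fs B u t) (u t)).card ≤ Fintype.card V * Nat.log 2 (Fintype.card V) := by
  have key : ∀ m, ∑ i ∈ range m, (exc G (fs B u (t0 + i)) (u (t0 + i))).card +
      pot G (fs B u (t0 + m)) ≤ pot G (fs B u t0) := by
    intro m
    induction m with
    | zero => simp
    | succ m ih =>
      rw [sum_range_succ]
      have h := pot_step G (fs B u (t0 + m)) (u (t0 + m))
      rw [← fs_succ] at h
      have : t0 + (m + 1) = t0 + m + 1 := by omega
      rw [this]
      omega
  have h1 := key s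
  have h2 := pot_le G (fs B u t0)
  by_contra hcon
  push_neg at hcon
  have h3 : ∀ i ∈ range s, Fintype.card V * Nat.log 2 (Fintype.card V) <
      s * (exc G (fs B u (t0 + i)) (u (t0 + i))).card := by
    intro i hi
    exact hcon (t0 + i) (by omega) (by have := mem_range.mp hi; omega)
  have h4 : ∑ _i ∈ range s, Fintype.card V * Nat.log 2 (Fintype.card V) <
      ∑ i ∈ range s, s * (exc G (fs B u (t0 + i)) (u (t0 + i))).card :=
    sum_lt_sum_of_nonempty (by simpa using (by omega : s ≠ 0)) h3
  rw [sum_const, card_range, smul_eq_mul, ← mul_sum] at h4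
  have h5 := lt_of_mul_lt_mul_left h4 (Nat.zero_le s)
  omega

/-- The graph `G` with the neighbourhood of `v` replaced by `N`. -/
def setNbr (G : SimpleGraph V) (v : V) (N : Finset V) : SimpleGraph V where
  Adj x y := x ≠ y ∧ ((x = v ∧ y ∈ N) ∨ (y = v ∧ x ∈ N) ∨ (x ≠ v ∧ y ≠ v ∧ G.Adj x y))
  symm := by
    constructor
    rintro x y ⟨h0, h⟩
    refine ⟨h0.symm, ?_⟩
    rcases h with h | h | h
    · exact Or.inr (Or.inl h)
    · exact Or.inl h
    · exact Or.inr (Or.inr ⟨h.2.1, h.1, h.2.2.symm⟩)
  loopless := ⟨fun x h => h.1 rfl⟩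

theorem setNbr_off {G : SimpleGraph V} {v : V} {N : Finset V} {x y : V} (hx : x ≠ v) (hy : y ≠ v) :
    (setNbr G v N).Adj x y ↔ G.Adj x y := by
  constructor
  · rintro ⟨_, h | h | h⟩
    · exact absurd h.1 hx
    · exact absurd h.1 hy
    · exact h.2.2
  · intro h
    exact ⟨h.ne, Or.inr (Or.inr ⟨hx, hy, h⟩)⟩

theorem setNbr_v {G : SimpleGraph V} {v : V} {N : Finset V} (hv : v ∉ N) {y : V} :
    (setNbr G v N).Adj v y ↔ y ∈ N := by
  constructor
  · rintro ⟨h0, h | h | h⟩
    · exact h.2
    · exact absurd h.1.symm h0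
    · exact absurd rfl h.1
  · intro h
    exact ⟨fun e => hv (e ▸ h), Or.inl ⟨rfl, h⟩⟩

theorem dg_setNbr_v {G : SimpleGraph V} {v : V} {N : Finset V} (hv : v ∉ N) :
    dg (setNbr G v N) v = N.card := by
  unfold dg
  congr 1
  ext y
  simp [setNbr_v hv]

theorem dg_setNbr_le {G : SimpleGraph V} {v : V} {N : Finset V} {x : V} (hx : x ≠ v) :
    dg (setNbr G v N) x ≤ dg G x + 1 := by
  unfold dg
  calc (univ.filter (fun y => (setNbr G v N).Adj x y)).card
      ≤ (insert v (univ.filter (fun y => G.Adj x y))).card := by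
        apply card_le_card
        intro y hy
        rw [mem_filter] at hy
        rw [mem_insert, mem_filter]
        by_cases hyv : y = v
        · exact Or.inl hyv
        · exact Or.inr ⟨mem_univ _, (setNbr_off hx hyv).mp hy.2⟩
    _ ≤ _ := card_insert_le _ _

theorem dg_setNbr_eq {G : SimpleGraph V} {v : V} {N : Finset V} {x : V} (hx : x ≠ v) (hv : v ∉ N)
    (h : x ∈ N ↔ G.Adj v x) : dg (setNbr G v N) x = dg G x := by
  unfold dg
  congr 1
  ext y
  rw [mem_filter, mem_filter]
  refine and_congr_right (fun _ => ?_)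
  by_cases hyv : y = v
  · rw [hyv, SimpleGraph.adj_comm, setNbr_v hv, h, SimpleGraph.adj_comm]
  · exact setNbr_off hx hyv

/-- **Second stage.** -/
theorem stage2 (G : SimpleGraph V) (B : Finset V) (s D : ℕ) (hs : 1 ≤ s) (u : ℕ → V)
    (hu : ∀ i < 3 * B.card + 1 + s, u i ∉ B)
    (hinj : ∀ i < 3 * B.card + 1 + s, ∀ j < 3 * B.card + 1 + s, u i = u j → i = j)
    (hcard : B.card + (3 * B.card + 1 + s) + 2 ≤ Fintype.card V)
    (hlow : ∀ x, x ∉ B → dg G x ≤ D) (hhigh : ∀ j ∈ B, D + 3 ≤ dg G j)
    (hsep : ∀ i ∈ B, ∀ j ∈ B, i ≠ j → dg G i + 2 ≤ dg G j ∨ dg G j + 2 ≤ dg G i)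
    (hcode : ∀ i < 3 * B.card + 1 + s, ∀ y, y ∉ B → y ≠ u i →
      ∃ j ∈ B, ¬ (G.Adj (u i) j ↔ G.Adj y j)) :
    ∃ (H : SimpleGraph V) (v : V) (X : Finset V) (M : ℕ),
      (∀ x y, x ≠ v → y ≠ v → (H.Adj x y ↔ G.Adj x y)) ∧
      (∀ x, x ∉ X → (H.Adj v x ↔ G.Adj v x)) ∧
      s * M ≤ Fintype.card V * Nat.log 2 (Fintype.card V) ∧
      X.card ≤ M + (3 * B.card + 1 + s) ∧
      Reconstructible H ∧ Reconstructible Hᶜ := by
  obtain ⟨t, ht0, ht1, htM⟩ := exists_small G B u (3 * B.card + 1) s hs
  set v := u t with hv
  set A := (range t).image u with hAdef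
  have hfs : fs B u t = B ∪ A := rfl
  have hvB : v ∉ B := hu t ht1
  have hmA : ∀ x, x ∈ A ↔ ∃ i < t, u i = x := by
    intro x
    simp [hAdef]
  have hvA : v ∉ A := by
    rw [hmA]
    rintro ⟨i, hi, h⟩
    have := hinj i (by omega) t ht1 h
    omega
  have hAcard : A.card = t := by
    rw [hAdef, card_image_of_injOn, card_range]
    intro i hi j hj hij
    rw [mem_coe, mem_range] at hi hj
    exact hinj i (by omega) j (by omega) hij
  have hBA : Disjoint B A := by
    rw [Finset.disjoint_left]
    intro x hx hxA
    obtain ⟨i, hi, rfl⟩ := (hmA x).mp hxA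
    exact hu i (by omega) hx
  -- the forbidden degrees
  let forb : Finset ℕ := B.image (fun j => dg G j - 1) ∪ (B.image (fun j => dg G j) ∪
    B.image (fun j => dg G j + 1))
  have hforb : forb.card ≤ 3 * B.card := by
    have h1 := card_union_le (B.image (fun j => dg G j - 1)) (B.image (fun j => dg G j) ∪
      B.image (fun j => dg G j + 1))
    have h2 := card_union_le (B.image (fun j => dg G j)) (B.image (fun j => dg G j + 1))
    have h3 := card_image_le (s := B) (f := fun j => dg G j - 1)
    have h4 := card_image_le (s := B) (f := fun j => dg G j)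
    have h5 := card_image_le (s := B) (f := fun j => dg G j + 1)
    show (B.image (fun j => dg G j - 1) ∪ (B.image (fun j => dg G j) ∪
      B.image (fun j => dg G j + 1))).card ≤ _
    omega
  let N0 : Finset V := univ.filter (fun x => x ∉ A ∧ x ≠ v ∧
    ((x ∈ B ∧ G.Adj v x) ∨ (x ∉ B ∧ maj G (fs B u t) v x)))
  obtain ⟨k, hk, hkf⟩ : ∃ k ≤ 3 * B.card, N0.card + k ∉ forb := by
    by_contra hcon
    push_neg at hcon
    have h1 : (range (3 * B.card + 1)).image (fun k => N0.card + k) ⊆ forb := by
      intro y hy
      obtain ⟨k, hk, rfl⟩ := mem_image.mp hy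
      exact hcon k (by have := mem_range.mp hk; omega)
    have h2 := card_le_card h1
    rw [card_image_of_injective _ (fun a b hab => by simpa using hab), card_range] at h2
    omega
  obtain ⟨Q, hQA, hQc⟩ := exists_subset_card_eq (s := A) (n := k) (by omega)
  have hN0A : Disjoint N0 A := by
    rw [Finset.disjoint_left]
    intro x hx hxA
    exact (mem_filter.mp hx).2.1 hxA
  let N : Finset V := N0 ∪ Q
  have hNcard : N.card = N0.card + k := by
    show (N0 ∪ Q).card = _
    rw [card_union_of_disjoint (Finset.disjoint_of_subset_right hQA hN0A), hQc]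
  have hvN : v ∉ N := by
    intro h
    rcases mem_union.mp h with h | h
    · exact (mem_filter.mp h).2.2.1 rfl
    · exact hvA (hQA h)
  have hNB : ∀ x ∈ B, (x ∈ N ↔ G.Adj v x) := by
    intro x hx
    have hxA : x ∉ A := Finset.disjoint_left.mp hBA hx
    constructor
    · intro h
      rcases mem_union.mp h with h | h
      · rcases (mem_filter.mp h).2.2.2 with h | h
        · exact h.2
        · exact absurd hx h.1
      · exact absurd (hQA h) hxA
    · intro h
      refine mem_union_left _ (mem_filter.mpr ⟨mem_univ _, hxA, ?_, Or.inl ⟨hx, h⟩⟩)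
      exact fun e => hvB (e ▸ hx)
  have hNo : ∀ x, x ∉ B → x ∉ A → x ≠ v → (x ∈ N ↔ maj G (fs B u t) v x) := by
    intro x hx hxA hxv
    constructor
    · intro h
      rcases mem_union.mp h with h | h
      · rcases (mem_filter.mp h).2.2.2 with h | h
        · exact absurd h.1 hx
        · exact h.2
      · exact absurd (hQA h) hxA
    · intro h
      exact mem_union_left _ (mem_filter.mpr ⟨mem_univ _, hxA, hxv, Or.inr ⟨hx, h⟩⟩)
  set H := setNbr G v N with hH
  have hBne : ∀ j ∈ B, j ≠ v := fun j hj e => hvB (e ▸ hj)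
  have hHB : ∀ y, ∀ j ∈ B, (H.Adj y j ↔ G.Adj y j) := by
    intro y j hj
    by_cases hyv : y = v
    · rw [hyv, hH, setNbr_v hvN]
      exact hNB j hj
    · exact setNbr_off hyv (hBne j hj)
  have hdB : ∀ j ∈ B, dg H j = dg G j := by
    intro j hj
    exact dg_setNbr_eq (hBne j hj) hvN (hNB j hj)
  have hdv : dg H v = N0.card + k := by rw [hH, dg_setNbr_v hvN, hNcard]
  refine ⟨H, v, exc G (fs B u t) v ∪ A, (exc G (fs B u t) v).card,
    fun x y hx hy => setNbr_off hx hy, ?_, htM, ?_, ?_⟩
  · intro x hx
    rw [mem_union, not_or] at hx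
    rw [hH, setNbr_v hvN]
    by_cases hxv : x = v
    · rw [hxv]
      exact iff_of_false hvN (G.irrefl)
    by_cases hxB : x ∈ B
    · exact hNB x hxB
    · rw [hNo x hxB hx.2 hxv]
      have h1 := hx.1
      unfold exc at h1
      rw [mem_filter] at h1
      by_contra h2
      exact h1 ⟨mem_univ _, fun h3 => h2 h3.symm⟩
  · refine (card_union_le _ _).trans ?_
    omega
  · refine core H B A v hBA hvB hvA ?_ ?_ ?_ ?_ ?_ ?_
    · have h1 : (univ \ B).card = Fintype.card V - B.card := by
        rw [card_sdiff_of_subset (subset_univ _), card_univ]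
      have h2 : (univ \ B).card - A.card ≤ ((univ \ B) \ A).card := le_card_sdiff _ _
      omega
    · intro j hj
      rw [hdB j hj]
      have := hhigh j hj
      omega
    · intro j hj y hy
      rw [hdB j hj]
      have hj3 := hhigh j hj
      by_cases hyB : y ∈ B
      · rw [hdB y hyB]
        have := hsep y hyB j hj hy
        omega
      · by_cases hyv : y = v
        · rw [hyv, hdv]
          refine ⟨fun e => hkf ?_, fun e => hkf ?_, fun e => hkf ?_⟩
          · rw [e]
            exact mem_union_right _ (mem_union_left _ (mem_image_of_mem _ hj))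
          · have e' : N0.card + k = dg G j - 1 := by omega
            rw [e']
            exact mem_union_left _ (mem_image_of_mem (fun j => dg G j - 1) hj)
          · rw [e]
            exact mem_union_right _ (mem_union_right _ (mem_image_of_mem (fun j => dg G j + 1) hj))
        · have h1 := dg_setNbr_le (G := G) (N := N) hyv
          have h2 := hlow y hyB
          rw [← hH] at h1
          omega
    · intro a ha y hyB hya
      obtain ⟨i, hi, rfl⟩ := (hmA a).mp ha
      obtain ⟨j, hj, hj'⟩ := hcode i (by omega) y hyB hya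
      refine ⟨j, hj, ?_⟩
      rw [hHB _ j hj, hHB _ j hj]
      exact hj'
    · intro y hyB hyv
      obtain ⟨j, hj, hj'⟩ := hcode t ht1 y hyB hyv
      refine ⟨j, hj, ?_⟩
      rw [hHB _ j hj, hHB _ j hj]
      exact hj'
    · intro x y hxB hxA hxv hyB hyA hyv h1 h2
      rw [hH, setNbr_v hvN, setNbr_v hvN, hNo x hxB hxA hxv, hNo y hyB hyA hyv]
      have hc : cls G (fs B u t) x = cls G (fs B u t) y := by
        have h3 : ∀ a ∈ fs B u t, (G.Adj x a ↔ G.Adj y a) := by
          intro a ha
          rw [hfs, mem_union] at ha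
          rcases ha with ha | ha
          · rw [← hHB x a ha, ← hHB y a ha]
            exact h1 a ha
          · have hav : a ≠ v := fun e => hvA (e ▸ ha)
            rw [← setNbr_off (G := G) (N := N) hxv hav, ← setNbr_off (G := G) (N := N) hyv hav]
            exact h2 a ha
        ext z
        unfold cls
        rw [mem_filter, mem_filter]
        refine and_congr_right (fun _ => ?_)
        constructor
        · intro h a ha
          exact (h3 a ha).symm.trans (h a ha)
        · intro h a ha
          exact (h3 a ha).trans (h a ha)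
      unfold maj
      rw [hc]

end Pool.Agent.U511.RD
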