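import Pool.Agent.R694.RC.Tame

set_option autoImplicit false
set_option linter.unusedSectionVars false

/-!
# Graphs with a small set of vertices of isolated degrees

If the degrees of the vertices in `B` are isolated, the vertices in `A` and the vertex `v` are
determined by their neighbours in `B`, and the adjacency to `v` of the other vertices depends only on
their neighbours in `B ∪ A`, then the graph and its complement are reconstructible.
-/

namespace Pool.Agent.U511.RD

open Finset Classical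
open Pool.Agent.H234RC (Reconstructible)
open Pool.Agent.R694.RC

variable {V : Type} [Fintype V]

/-- The degree of `x` in `G`. -/
noncomputable def dg (G : SimpleGraph V) (x : V) : ℕ := (univ.filter (fun y => G.Adj x y)).card

theorem nbrs_univ (G : SimpleGraph V) (c : V → ℕ) (x : V) :
    nbrs G univ c Set.univ x = dg G x := by
  unfold nbrs dg
  congr 1
  ext y
  simp

/-- the colouring by the number of the gaps below the degree -/
noncomputable def gc (G : SimpleGraph V) (E : Finset ℕ) (x : V) : ℕ :=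
  (E.filter (fun e => e < dg G x)).card

theorem tame_gc (G : SimpleGraph V) (E : Finset ℕ) :
    (∀ x, ∀ e ∈ E, dg G x ≠ e) → Tame G univ (gc G E) := by
  induction E using Finset.induction_on_max with
  | empty =>
    intro _
    have : gc G ∅ = fun _ => 0 := by
      funext x
      simp [gc]
    rw [this]
    exact Tame.start
  | insert e E hmax ih =>
    intro h
    have ih' := ih (fun x e' he' => h x e' (mem_insert_of_mem he'))
    have heE : e ∉ E := fun he => lt_irrefl _ (hmax e he)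
    have hsp := Tame.split univ (gc G E) E.card e (E.card + 1) Set.univ ih'
      (fun x _ _ => by rw [nbrs_univ]; exact h x e (mem_insert_self _ _))
      (fun x _ => by
        have : gc G E x ≤ E.card := card_filter_le _ _
        omega)
    convert hsp using 1
    funext x
    rw [nbrs_univ]
    unfold gc
    rw [filter_insert]
    by_cases hx : e < dg G x
    · have hall : E.filter (fun e => e < dg G x) = E := by
        rw [filter_eq_self]
        intro e' he'
        exact (hmax e' he').trans hx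
      rw [if_pos hx, hall, card_insert_of_notMem heE, if_pos ⟨rfl, hx⟩]
    · rw [if_neg hx, if_neg (fun h => hx h.2)]

theorem gc_eq {G : SimpleGraph V} {E : Finset ℕ} {x y : V} (h : gc G E x = gc G E y) :
    ∀ e ∈ E, (e < dg G x ↔ e < dg G y) := by
  unfold gc at h
  rcases le_total (dg G x) (dg G y) with hle | hle
  · have hs : E.filter (fun e => e < dg G x) ⊆ E.filter (fun e => e < dg G y) := by
      intro e he
      rw [mem_filter] at he ⊢
      exact ⟨he.1, he.2.trans_le hle⟩
    have heq := eq_of_subset_of_card_le hs h.symm.le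
    intro e he
    have := Finset.ext_iff.mp heq e
    rw [mem_filter, mem_filter] at this
    exact ⟨fun h1 => (this.mp ⟨he, h1⟩).2, fun h1 => (this.mpr ⟨he, h1⟩).2⟩
  · have hs : E.filter (fun e => e < dg G y) ⊆ E.filter (fun e => e < dg G x) := by
      intro e he
      rw [mem_filter] at he ⊢
      exact ⟨he.1, he.2.trans_le hle⟩
    have heq := eq_of_subset_of_card_le hs h.le
    intro e he
    have := Finset.ext_iff.mp heq e
    rw [mem_filter, mem_filter] at this
    exact ⟨fun h1 => (this.mpr ⟨he, h1⟩).2, fun h1 => (this.mp ⟨he, h1⟩).2⟩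

/-- freezing a set of vertices with unique colours -/
theorem freeze_uniq (G : SimpleGraph V) (U A : Finset V) (c : V → ℕ) (hT : Tame G U c)
    (hA : A ⊆ U) (h3 : 3 ≤ (U \ A).card) (hu : ∀ x ∈ A, ∀ y ∈ U, y ≠ x → c x ≠ c y) :
    ∃ c' : V → ℕ, Tame G (U \ A) c' ∧ ∀ x ∈ U \ A, ∀ y ∈ U \ A,
      (c' x = c' y ↔ c x = c y ∧ ∀ a ∈ A, (G.Adj x a ↔ G.Adj y a)) := by
  let key : V → ℕ × Finset V := fun x => (c x, A.filter (fun a => G.Adj x a))
  obtain ⟨f, hf⟩ : ∃ f : ℕ × Finset V → ℕ, ∀ x y, f (key x) = f (key y) ↔ key x = key y := by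
    let R : Finset (ℕ × Finset V) := univ.image key
    let g := R.equivFin
    refine ⟨fun p => if h : p ∈ R then (g ⟨p, h⟩ : ℕ) else 0, fun x y => ?_⟩
    have hx : key x ∈ R := mem_image_of_mem _ (mem_univ x)
    have hy : key y ∈ R := mem_image_of_mem _ (mem_univ y)
    simp only [hx, hy, dif_pos]
    rw [Fin.val_inj, g.apply_eq_iff_eq, Subtype.mk.injEq]
  have hk : ∀ x y, (f (key x) = f (key y) ↔ c x = c y ∧ ∀ a ∈ A, (G.Adj x a ↔ G.Adj y a)) := by
    intro x y
    rw [hf]
    show (c x, A.filter (fun a => G.Adj x a)) = (c y, A.filter (fun a => G.Adj y a)) ↔ _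
    rw [Prod.mk.injEq]
    refine and_congr Iff.rfl ?_
    rw [Finset.ext_iff]
    constructor
    · intro h a ha
      have h5 := h a
      rw [mem_filter (s := A), mem_filter (s := A)] at h5
      exact ⟨fun h6 => (h5.mp ⟨ha, h6⟩).2, fun h6 => (h5.mpr ⟨ha, h6⟩).2⟩
    · intro h a
      rw [mem_filter (s := A), mem_filter (s := A)]
      exact and_congr_right (fun ha => h a ha)
  refine ⟨fun x => f (key x), Tame.freeze U A c _ hT hA h3 ?_ ?_ (fun x _ y _ => hk x y),
    fun x _ y _ => hk x y⟩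
  · intro x hx y hy
    rw [mem_sdiff] at hy
    exact hu x hx y hy.1 (fun e => hy.2 (e ▸ hx))
  · intro σ h1 _ x hx
    by_contra hne
    exact hu x hx (σ x) (hA (h1 x hx).1) hne (h1 x hx).2.symm

/-- **Core lemma.** -/
theorem core (G : SimpleGraph V) (B A : Finset V) (v : V) (hBA : Disjoint B A) (hvB : v ∉ B)
    (hvA : v ∉ A) (h3 : 3 ≤ ((univ \ B) \ A).card) (hpos : ∀ j ∈ B, 1 ≤ dg G j)
    (hB : ∀ j ∈ B, ∀ y, y ≠ j → dg G y ≠ dg G j ∧ dg G y + 1 ≠ dg G j ∧ dg G y ≠ dg G j + 1)
    (hA : ∀ a ∈ A, ∀ y, y ∉ B → y ≠ a → ∃ j ∈ B, ¬ (G.Adj a j ↔ G.Adj y j))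
    (hv : ∀ y, y ∉ B → y ≠ v → ∃ j ∈ B, ¬ (G.Adj v j ↔ G.Adj y j))
    (hcl : ∀ x y, x ∉ B → x ∉ A → x ≠ v → y ∉ B → y ∉ A → y ≠ v →
      (∀ a ∈ B, (G.Adj x a ↔ G.Adj y a)) → (∀ a ∈ A, (G.Adj x a ↔ G.Adj y a)) →
      (G.Adj v x ↔ G.Adj v y)) :
    Reconstructible G ∧ Reconstructible Gᶜ := by
  -- the gaps
  let E : Finset ℕ := B.image (fun j => dg G j - 1) ∪ B.image (fun j => dg G j + 1)
  have hE : ∀ x, ∀ e ∈ E, dg G x ≠ e := by
    intro x e he hxe
    rw [mem_union, mem_image, mem_image] at he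
    rcases he with ⟨j, hj, rfl⟩ | ⟨j, hj, rfl⟩
    · have h1 := hpos j hj
      by_cases hxj : x = j
      · subst hxj; omega
      · have := hB j hj x hxj; omega
    · by_cases hxj : x = j
      · subst hxj; omega
      · have := hB j hj x hxj; omega
  have hT0 := tame_gc G E hE
  have hu0 : ∀ x ∈ B, ∀ y ∈ (univ : Finset V), y ≠ x → gc G E x ≠ gc G E y := by
    intro x hx y _ hyx heq
    have h1 := gc_eq heq
    have h2 := h1 (dg G x - 1) (mem_union_left _ (mem_image_of_mem _ hx))
    have h3 := h1 (dg G x + 1) (mem_union_right _ (mem_image_of_mem (fun j => dg G j + 1) hx))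
    have h4 := hB x hx y hyx
    have h5 := hpos x hx
    have h6 : dg G x - 1 < dg G y := h2.mp (by omega)
    have h7 : ¬ dg G x + 1 < dg G y := fun h => by
      have := h3.mpr h
      omega
    omega
  have hcard1 : 3 ≤ (univ \ B).card := h3.trans (card_le_card sdiff_subset)
  obtain ⟨c1, hT1, hc1⟩ := freeze_uniq G univ B (gc G E) hT0 (subset_univ _) hcard1 hu0
  have hm1 : ∀ x, x ∈ univ \ B ↔ x ∉ B := fun x => by simp
  have hAsub : A ⊆ univ \ B := by
    intro a ha
    rw [hm1]
    exact fun h => Finset.disjoint_left.mp hBA h ha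
  have hu1 : ∀ x ∈ A, ∀ y ∈ univ \ B, y ≠ x → c1 x ≠ c1 y := by
    intro x hx y hy hyx heq
    obtain ⟨j, hj, hj'⟩ := hA x hx y ((hm1 y).mp hy) hyx
    exact hj' (((hc1 x (hAsub hx) y hy).mp heq).2 j hj)
  obtain ⟨c2, hT2, hc2⟩ := freeze_uniq G (univ \ B) A c1 hT1 hAsub h3 hu1
  have hm2 : ∀ x, x ∈ (univ \ B) \ A ↔ x ∉ B ∧ x ∉ A := fun x => by simp
  have hcol : ∀ x ∈ (univ \ B) \ A, ∀ y ∈ (univ \ B) \ A, c2 x = c2 y →
      (∀ a ∈ B, (G.Adj x a ↔ G.Adj y a)) ∧ (∀ a ∈ A, (G.Adj x a ↔ G.Adj y a)) := by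
    intro x hx y hy heq
    have h1 := (hc2 x hx y hy).mp heq
    have h2 := (hc1 x (mem_sdiff.mp hx).1 y (mem_sdiff.mp hy).1).mp h1.1
    exact ⟨h2.2, h1.2⟩
  have hvU : v ∈ (univ \ B) \ A := (hm2 v).mpr ⟨hvB, hvA⟩
  refine main G (h3.trans (card_le_univ _)) _ c2 hT2 (Or.inr ?_)
  refine ⟨{v}, by simpa using hvU, singleton_nonempty v, ?_, ?_⟩
  · rw [← card_pos, card_sdiff_of_subset (by simpa using hvU), card_singleton]
    omega
  · intro x hx y hy x' hx' y' hy' hor
    rw [mem_singleton] at hx hx'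
    rw [mem_sdiff, mem_singleton] at hy hy'
    rw [hx] at hor ⊢
    rw [hx'] at hor ⊢
    have hy1 := (hm2 y).mp hy.1
    have hy2 := (hm2 y').mp hy'.1
    rcases hor with ⟨_, h⟩ | ⟨h, _⟩
    · obtain ⟨h1, h2⟩ := hcol y hy.1 y' hy'.1 h
      exact hcl y y' hy1.1 hy1.2 hy.2 hy2.1 hy2.2 hy'.2 h1 h2
    · exfalso
      obtain ⟨h1, _⟩ := hcol v hvU y' hy'.1 h
      obtain ⟨j, hj, hj'⟩ := hv y' hy2.1 hy'.2
      exact hj' (h1 j hj)

/-- a vertex adjacent to all other vertices -/
theorem univ_vertex (G : SimpleGraph V) (hV : 3 ≤ Fintype.card V) (z : V)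
    (hz : ∀ y, y ≠ z → G.Adj z y) : Reconstructible G ∧ Reconstructible Gᶜ := by
  refine main G hV univ (fun _ => 0) Tame.start (Or.inr ?_)
  refine ⟨{z}, subset_univ _, singleton_nonempty z, ?_, ?_⟩
  · rw [← card_pos, card_sdiff_of_subset (subset_univ _), card_singleton, card_univ]
    omega
  · intro x hx y hy x' hx' y' hy' _
    rw [mem_singleton] at hx hx'
    rw [mem_sdiff, mem_singleton] at hy hy'
    rw [hx, hx']
    exact iff_of_true (hz y hy.2) (hz y' hy'.2)

end Pool.Agent.U511.RD
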